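import Mathlib

/-!
The counting function that expresses the size of `2 Cl(K)[4]` for imaginary quadratic `K`.
-/

set_option autoImplicit false

namespace Pool.Agent.MP_5d10af_nt

open Classical in
/-- Number of factorisations `m = δ δ'` such that `c₁ δ'` is a square modulo every prime factor
of `δ` and `c₂ δ` is a square modulo every prime factor of `δ'`. -/
noncomputable def cnt (c₁ c₂ : ℤ) (m : ℕ) : ℕ :=
  (m.divisorsAntidiagonal.filter (fun x =>
    (∀ p ∈ x.1.primeFactors, jacobiSym (c₁ * x.2) p = 1) ∧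
    (∀ p ∈ x.2.primeFactors, jacobiSym (c₂ * x.1) p = 1))).card

/-- The hypothesis of the frozen statement. -/
def IsF (F : ℤ → ℕ) : Prop :=
  ∀ d : ℤ,
    (∀ (K : Type) [Field K] [NumberField K],
        Module.finrank ℚ K = 2 → NumberField.discr K = d →
          F d = Nat.card {y : ClassGroup (NumberField.RingOfIntegers K) //
            ∃ x : ClassGroup (NumberField.RingOfIntegers K), x ^ 4 = 1 ∧ x ^ 2 = y}) ∧
    ((¬ ∃ (K : Type) (_ : Field K) (_ : NumberField K),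
        Module.finrank ℚ K = 2 ∧ NumberField.discr K = d) → F d = 0)

/-- The genus theory formula. -/
structure Genus (F : ℤ → ℕ) : Prop where
  odd : ∀ m : ℕ, Squarefree m → m % 4 = 3 → 2 * F (-(m : ℤ)) = cnt 1 1 m
  four : ∀ m : ℕ, Squarefree m → m % 4 = 1 → m ≠ 1 →
    2 * F (-(4 * m : ℕ)) = cnt 1 1 m + cnt 2 2 m
  eight : ∀ m : ℕ, Squarefree m → m % 2 = 1 → 2 * F (-(8 * m : ℕ)) = cnt 1 2 m + cnt 2 1 m
  zero : ∀ n : ℕ, 0 < n → ¬ (Squarefree n ∧ n % 4 = 3) →
    (∀ m : ℕ, Squarefree m → m % 4 = 1 → n ≠ 4 * m) →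
    (∀ m : ℕ, Squarefree m → m % 2 = 1 → n ≠ 8 * m) → F (-(n : ℤ)) = 0

end Pool.Agent.MP_5d10af_nt
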