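import Pool.Agent.MP_5d10af_nt.Cnt

/-! Legendre's theorem for `a x² + b y² = c z²`, `c ∈ {1,2}`, and the count of solvable forms. -/

set_option autoImplicit false

namespace Pool.Agent.MP_5d10af_nt

/-- `x² + m y² = η z²` has a solution with `z ≠ 0`. -/
def Sol (m η : ℕ) : Prop := ∃ x y z : ℤ, z ≠ 0 ∧ x ^ 2 + m * y ^ 2 = η * z ^ 2

lemma leg_nec_aux (a b c p : ℕ) (hp : p.Prime) (hpa : p ∣ a) (hsq : Squarefree (a * b * c)) :
    ∀ (n : ℕ) (x y z : ℤ), z.natAbs = n → z ≠ 0 → a * x ^ 2 + b * y ^ 2 = c * z ^ 2 →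
      jacobiSym (c * b) p = 1 := by
  have hpZ : Prime (p : ℤ) := Nat.prime_iff_prime_int.1 hp
  have hnb : ¬ p ∣ b := fun h => hp.one_lt.ne' (Nat.isUnit_iff.1 (hsq p
    (Dvd.dvd.mul_right (mul_dvd_mul hpa h) c)))
  have hnc : ¬ p ∣ c := fun h => hp.one_lt.ne' (Nat.isUnit_iff.1 (hsq p
    (mul_dvd_mul (Dvd.dvd.mul_right hpa b) h)))
  have hna : ¬ p * p ∣ a := fun h => hp.one_lt.ne' (Nat.isUnit_iff.1 (hsq p
    (Dvd.dvd.mul_right (Dvd.dvd.mul_right h b) c)))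
  have hnb' : ¬ (p : ℤ) ∣ b := fun h => hnb (Int.natCast_dvd_natCast.1 h)
  have hnc' : ¬ (p : ℤ) ∣ c := fun h => hnc (Int.natCast_dvd_natCast.1 h)
  obtain ⟨a', rfl⟩ := hpa
  have hna' : ¬ (p : ℤ) ∣ a' := fun h => hna (mul_dvd_mul_left p (Int.natCast_dvd_natCast.1 h))
  have p0 : (p : ℤ) ≠ 0 := hpZ.ne_zero
  intro n
  induction n using Nat.strong_induction_on with
  | _ n ih =>
    intro x y z hn hz h
    push_cast at h
    by_cases hy : (p : ℤ) ∣ y
    · obtain ⟨y', rfl⟩ := hy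
      have h1 : (p : ℤ) ∣ c * z ^ 2 := ⟨a' * x ^ 2 + b * p * y' ^ 2, by rw [← h]; ring⟩
      obtain ⟨z', rfl⟩ := hpZ.dvd_of_dvd_pow ((hpZ.dvd_or_dvd h1).resolve_left hnc')
      have h2 : (a' : ℤ) * x ^ 2 = p * (c * z' ^ 2 - b * y' ^ 2) := by
        apply mul_left_cancel₀ p0
        linear_combination h
      obtain ⟨x', rfl⟩ := hpZ.dvd_of_dvd_pow ((hpZ.dvd_or_dvd ⟨_, h2⟩).resolve_left hna')
      have z0 : z' ≠ 0 := fun h0 => hz (by rw [h0, mul_zero])
      refine ih z'.natAbs ?_ x' y' z' rfl z0 ?_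
      · rw [← hn, Int.natAbs_mul, Int.natAbs_natCast]
        have := Int.natAbs_pos.2 z0
        have := hp.two_le
        nlinarith
      · push_cast
        apply mul_left_cancel₀ (mul_ne_zero p0 p0)
        linear_combination h
    · have := Fact.mk hp
      rw [← jacobiSym.legendreSym.to_jacobiSym]
      have ny : (y : ZMod p) ≠ 0 := fun h0 => hy ((ZMod.intCast_zmod_eq_zero_iff_dvd y p).1 h0)
      have nb : (((c : ℤ) * b : ℤ) : ZMod p) ≠ 0 := fun h0 =>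
        (hpZ.dvd_or_dvd ((ZMod.intCast_zmod_eq_zero_iff_dvd _ p).1 h0)).elim hnc' hnb'
      rw [legendreSym.eq_one_iff p nb]
      have h3 := congrArg (fun t : ℤ => (t : ZMod p)) h
      simp only [Int.cast_add, Int.cast_mul, Int.cast_pow, Int.cast_natCast, ZMod.natCast_self,
        zero_mul, zero_add] at h3
      refine ⟨c * z / y, ?_⟩
      push_cast
      field_simp
      linear_combination (c : ZMod p) * h3

lemma exists_sqrt_mod (n : ℤ) : ∀ a : ℕ, Squarefree a →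
    (∀ p ∈ a.primeFactors, p ≠ 2 → jacobiSym n p = 1) → ∃ u : ℤ, (a : ℤ) ∣ u ^ 2 - n := by
  intro a
  induction a using induction_on_primes with
  | zero => intro h; exact absurd h not_squarefree_zero
  | one => intro _ _; exact ⟨0, by simp⟩
  | prime_mul p a hp ih =>
    intro hsq h
    have ha : Squarefree a := hsq.of_mul_right
    have a0 : a ≠ 0 := ha.ne_zero
    have hcop : Nat.Coprime p a := Nat.coprime_of_squarefree_mul hsq
    obtain ⟨u, hu⟩ := ih ha fun q hq h2 => h q (by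
      rw [Nat.mem_primeFactors] at hq ⊢
      exact ⟨hq.1, Dvd.dvd.mul_left hq.2.1 p, hsq.ne_zero⟩) h2
    have hv : ∃ v : ℤ, (p : ℤ) ∣ v ^ 2 - n := by
      by_cases h2 : p = 2
      · subst h2
        refine ⟨n, ?_⟩
        have : n ^ 2 - n = n * (n - 1) := by ring
        rw [this]
        exact (Int.even_mul_pred_self n).two_dvd
      · have := Fact.mk hp
        have := h p (by
          rw [Nat.mem_primeFactors]
          exact ⟨hp, Dvd.intro _ rfl, hsq.ne_zero⟩) h2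
        obtain ⟨v, hv⟩ := ZMod.isSquare_of_jacobiSym_eq_one this
        refine ⟨v.val, (ZMod.intCast_zmod_eq_zero_iff_dvd _ p).1 ?_⟩
        push_cast
        rw [hv, ZMod.natCast_zmod_val]; ring
    obtain ⟨v, hv⟩ := hv
    have hc : IsCoprime (p : ℤ) (a : ℤ) := Nat.isCoprime_iff_coprime.2 hcop
    obtain ⟨s, t, hst⟩ := hc
    refine ⟨u * s * p + v * t * a, ?_⟩
    push_cast
    apply (Nat.isCoprime_iff_coprime.2 hcop).mul_dvd
    · obtain ⟨k, hk⟩ := hv
      refine ⟨k + (u * s - v * s) * (2 * v + (u * s - v * s) * p), ?_⟩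
      have e : u * s * p + v * t * a = v + (u * s - v * s) * p := by linear_combination v * hst
      rw [e]; linear_combination hk
    · obtain ⟨k, hk⟩ := hu
      refine ⟨k + (v * t - u * t) * (2 * u + (v * t - u * t) * a), ?_⟩
      have e : u * s * p + v * t * a = u + (v * t - u * t) * a := by linear_combination u * hst
      rw [e]; linear_combination hk

lemma sq_le_of_fin {n : ℕ} (i j : Fin (Nat.sqrt n + 1)) : ((i : ℤ) - j) ^ 2 ≤ n := by
  have h1 := i.2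
  have h2 := j.2
  have h3 : Nat.sqrt n * Nat.sqrt n ≤ n := Nat.sqrt_le n
  have h4 : ((Nat.sqrt n : ℕ) : ℤ) * Nat.sqrt n ≤ n := by exact_mod_cast h3
  have h5 : |(i : ℤ) - j| ≤ Nat.sqrt n := abs_le.2 ⟨by omega, by omega⟩
  have := sq_le_sq' (abs_le.1 h5).1 (abs_le.1 h5).2
  nlinarith

lemma leg_suf (a b c : ℕ) (hsq : Squarefree (a * b * c)) (hc : c = 1 ∨ c = 2) (u v : ℤ)
    (hu : (a : ℤ) ∣ u ^ 2 - c * b) (hv : (b : ℤ) ∣ v ^ 2 - c * a) :
    ∃ x y z : ℤ, z ≠ 0 ∧ a * x ^ 2 + b * y ^ 2 = c * z ^ 2 := by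
  have hab : Squarefree (a * b) := hsq.of_mul_left
  have a0 : 0 < a := Nat.pos_of_ne_zero hab.of_mul_left.ne_zero
  have b0 : 0 < b := Nat.pos_of_ne_zero hab.of_mul_right.ne_zero
  have c0 : 0 < c := by omega
  by_cases h1 : a * b = 1
  · have ha : a = 1 := Nat.eq_one_of_mul_eq_one_right h1
    have hb : b = 1 := Nat.eq_one_of_mul_eq_one_left h1
    subst ha hb
    rcases hc with rfl | rfl
    · exact ⟨1, 0, 1, by norm_num, by norm_num⟩
    · exact ⟨1, 1, 1, by norm_num, by norm_num⟩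
  have nsq : ∀ w : ℤ, w ^ 2 ≠ a * b := by
    intro w hw
    have : w.natAbs * w.natAbs = a * b := by
      have := congrArg Int.natAbs hw
      simpa [Int.natAbs_mul, Int.natAbs_pow, sq] using this
    have h2 := Nat.isUnit_iff.1 (hab w.natAbs (this ▸ dvd_rfl))
    rw [h2] at this
    omega
  have cab : IsCoprime (a : ℤ) (b : ℤ) :=
    Nat.isCoprime_iff_coprime.2 (Nat.coprime_of_squarefree_mul hab)
  have cabc : IsCoprime ((a : ℤ) * b) (c : ℤ) := by
    have := Nat.isCoprime_iff_coprime.2 (Nat.coprime_of_squarefree_mul hsq)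
    simpa using this
  have : NeZero a := ⟨a0.ne'⟩
  have : NeZero b := ⟨b0.ne'⟩
  have : NeZero c := ⟨c0.ne'⟩
  let f : Fin (Nat.sqrt (b * c) + 1) × Fin (Nat.sqrt (a * c) + 1) × Fin (Nat.sqrt (a * b) + 1) →
      ZMod a × ZMod b × ZMod c := fun t =>
    (((b * (t.2.1 : ℤ) - u * (t.2.2 : ℤ) : ℤ) : ZMod a),
      ((a * (t.1 : ℤ) - v * (t.2.2 : ℤ) : ℤ) : ZMod b), (((t.1 : ℤ) - (t.2.1 : ℤ) : ℤ) : ZMod c))
  obtain ⟨s, t, hst, hf⟩ := Fintype.exists_ne_map_eq_of_card_lt f (by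
    simp only [Fintype.card_prod, ZMod.card, Fintype.card_fin]
    have e1 := Nat.lt_succ_sqrt (b * c)
    have e2 := Nat.lt_succ_sqrt (a * c)
    have e3 := Nat.lt_succ_sqrt (a * b)
    simp only [Nat.succ_eq_add_one] at e1 e2 e3
    set A := Nat.sqrt (b * c) + 1
    set B := Nat.sqrt (a * c) + 1
    set C := Nat.sqrt (a * b) + 1
    apply lt_of_mul_self_lt_mul_self₀ (Nat.zero_le _)
    calc a * (b * c) * (a * (b * c)) = (b * c) * ((a * c) * (a * b)) := by ring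
      _ < (A * A) * ((B * B) * (C * C)) := by
          apply Nat.mul_lt_mul'' e1 (Nat.mul_lt_mul'' e2 e3)
      _ = A * (B * C) * (A * (B * C)) := by ring)
  set x : ℤ := (s.1 : ℤ) - t.1 with hx
  set y : ℤ := (s.2.1 : ℤ) - t.2.1 with hy
  set z : ℤ := (s.2.2 : ℤ) - t.2.2 with hz
  have x2 : x ^ 2 ≤ b * c := by simpa using sq_le_of_fin s.1 t.1
  have y2 : y ^ 2 ≤ a * c := by simpa using sq_le_of_fin s.2.1 t.2.1
  have z2 : z ^ 2 ≤ a * b := by simpa using sq_le_of_fin s.2.2 t.2.2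
  have z3 : z ^ 2 < a * b := lt_of_le_of_ne z2 (nsq z)
  simp only [f, Prod.mk.injEq] at hf
  obtain ⟨f1, f2, f3⟩ := hf
  have d1 : (a : ℤ) ∣ b * y - u * z := by
    have := (ZMod.intCast_eq_intCast_iff_dvd_sub _ _ a).1 f1.symm
    have e : b * y - u * z = (b * (s.2.1 : ℤ) - u * s.2.2) - (b * (t.2.1 : ℤ) - u * t.2.2) := by
      rw [hy, hz]; ring
    rw [e]; exact this
  have d2 : (b : ℤ) ∣ a * x - v * z := by
    have := (ZMod.intCast_eq_intCast_iff_dvd_sub _ _ b).1 f2.symm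
    have e : a * x - v * z = (a * (s.1 : ℤ) - v * s.2.2) - (a * (t.1 : ℤ) - v * t.2.2) := by
      rw [hx, hz]; ring
    rw [e]; exact this
  have d3 : (c : ℤ) ∣ x - y := by
    have := (ZMod.intCast_eq_intCast_iff_dvd_sub _ _ c).1 f3.symm
    have e : x - y = ((s.1 : ℤ) - s.2.1) - ((t.1 : ℤ) - t.2.1) := by
      rw [hx, hy]; ring
    rw [e]; exact this
  have nz : ¬ (x = 0 ∧ y = 0 ∧ z = 0) := by
    rintro ⟨h1, h2, h3⟩
    apply hst
    refine Prod.ext (Fin.ext ?_) (Prod.ext (Fin.ext ?_) (Fin.ext ?_)) <;> omega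
  clear_value x y z
  set Q : ℤ := a * x ^ 2 + b * y ^ 2 - c * z ^ 2 with hQ
  have q1 : (a : ℤ) ∣ Q := by
    apply cab.dvd_of_dvd_mul_left
    obtain ⟨k, hk⟩ := hu
    obtain ⟨l, hl⟩ := d1
    exact ⟨b * x ^ 2 + l * (b * y + u * z) + k * z ^ 2, by
      rw [hQ]; linear_combination (b * y + u * z) * hl + z ^ 2 * hk⟩
  have q2 : (b : ℤ) ∣ Q := by
    apply cab.symm.dvd_of_dvd_mul_left
    obtain ⟨k, hk⟩ := hv
    obtain ⟨l, hl⟩ := d2
    exact ⟨a * y ^ 2 + l * (a * x + v * z) + k * z ^ 2, by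
      rw [hQ]; linear_combination (a * x + v * z) * hl + z ^ 2 * hk⟩
  have q3 : (c : ℤ) ∣ Q := by
    rcases hc with rfl | rfl
    · simp
    · have oa : ¬ 2 ∣ a := fun h => by
        have := Nat.isUnit_iff.1 (hsq 2 (mul_dvd_mul (Dvd.dvd.mul_right h b) dvd_rfl)); omega
      have ob : ¬ 2 ∣ b := fun h => by
        have := Nat.isUnit_iff.1 (hsq 2 (mul_dvd_mul (Dvd.dvd.mul_left h a) dvd_rfl)); omega
      obtain ⟨a', ha'⟩ : ∃ a' : ℤ, (a : ℤ) = 2 * a' + 1 := ⟨a / 2, by omega⟩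
      obtain ⟨b', hb'⟩ : ∃ b' : ℤ, (b : ℤ) = 2 * b' + 1 := ⟨b / 2, by omega⟩
      obtain ⟨l, hl⟩ := d3
      have hx' : x = y + 2 * l := by push_cast at hl; linarith
      refine ⟨a' * x ^ 2 + b' * y ^ 2 - z ^ 2 + y ^ 2 + 2 * y * l + 2 * l ^ 2, ?_⟩
      rw [hQ, ha', hb', hx']; push_cast; ring
  obtain ⟨k, hk⟩ := cabc.mul_dvd (cab.mul_dvd q1 q2) q3
  have A0 : (0 : ℤ) < a := by exact_mod_cast a0
  have B0 : (0 : ℤ) < b := by exact_mod_cast b0
  have C0 : (0 : ℤ) < c := by exact_mod_cast c0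
  have P0 : (0 : ℤ) < a * b * c := by positivity
  have lo : -(a * b * c : ℤ) < Q := by
    have := mul_lt_mul_of_pos_left z3 C0
    have h1 : 0 ≤ (a : ℤ) * x ^ 2 := by positivity
    have h2 : 0 ≤ (b : ℤ) * y ^ 2 := by positivity
    rw [hQ]; linarith
  have hi : Q < 2 * (a * b * c : ℤ) := by
    have h1 := mul_le_mul_of_nonneg_left x2 A0.le
    have h2 := mul_le_mul_of_nonneg_left y2 B0.le
    have h3 : 0 ≤ (c : ℤ) * z ^ 2 := by positivity
    by_contra hcon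
    have e1 : x ^ 2 = b * c := by
      apply mul_left_cancel₀ A0.ne'
      rw [hQ] at hcon; linarith
    have e2 : y ^ 2 = a * c := by
      apply mul_left_cancel₀ B0.ne'
      rw [hQ] at hcon; linarith
    have e3 : (c : ℤ) ^ 2 ∣ (x * y) ^ 2 := ⟨a * b, by rw [mul_pow, e1, e2]; ring⟩
    obtain ⟨w, hw⟩ := (Int.pow_dvd_pow_iff (by norm_num)).1 e3
    apply nsq w
    apply mul_left_cancel₀ (pow_ne_zero 2 C0.ne')
    rw [← mul_pow, ← hw, mul_pow, e1, e2]; ring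
  have k1 : -1 < k := by
    by_contra hcon
    have : k ≤ -1 := by omega
    have := mul_le_mul_of_nonneg_left this P0.le
    linarith
  have k2 : k < 2 := by
    by_contra hcon
    have : 2 ≤ k := by omega
    have := mul_le_mul_of_nonneg_left this P0.le
    linarith
  have : k = 0 ∨ k = 1 := by omega
  rcases this with rfl | rfl
  · refine ⟨x, y, z, fun h0 => nz ?_, by linarith⟩
    have e : (a : ℤ) * x ^ 2 + b * y ^ 2 = 0 := by rw [hQ, h0] at hk; linarith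
    have h1 : 0 ≤ (a : ℤ) * x ^ 2 := by positivity
    have h2 : 0 ≤ (b : ℤ) * y ^ 2 := by positivity
    have h3 : (a : ℤ) * x ^ 2 = 0 := by linarith
    have h4 : (b : ℤ) * y ^ 2 = 0 := by linarith
    exact ⟨by simpa [a0.ne'] using h3, by simpa [b0.ne'] using h4, h0⟩
  · refine ⟨x * z + b * y, y * z - a * x, z ^ 2 + a * b, by positivity, ?_⟩
    rw [hQ] at hk
    linear_combination (z ^ 2 + a * b) * hk

theorem leg (a b c : ℕ) (hsq : Squarefree (a * b * c)) (hc : c = 1 ∨ c = 2) :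
    Sol (a * b) (a * c) ↔ (∀ p ∈ a.primeFactors, p ≠ 2 → jacobiSym (c * b) p = 1) ∧
      (∀ p ∈ b.primeFactors, p ≠ 2 → jacobiSym (c * a) p = 1) := by
  have ha : Squarefree a := hsq.of_mul_left.of_mul_left
  have hb : Squarefree b := hsq.of_mul_left.of_mul_right
  have a0 : (a : ℤ) ≠ 0 := by exact_mod_cast ha.ne_zero
  constructor
  · rintro ⟨x, y, z, hz, h⟩
    push_cast at h
    have h1 : (a : ℤ) ∣ x ^ 2 := ⟨c * z ^ 2 - b * y ^ 2, by linear_combination h⟩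
    obtain ⟨x', rfl⟩ := ((Int.squarefree_natCast.2 ha).dvd_pow_iff_dvd (by norm_num)).1 h1
    have h2 : (a : ℤ) * x' ^ 2 + b * y ^ 2 = c * z ^ 2 := by
      apply mul_left_cancel₀ a0
      linear_combination h
    constructor
    · intro p hp _
      rw [Nat.mem_primeFactors] at hp
      exact leg_nec_aux a b c p hp.1 hp.2.1 hsq _ x' y z rfl hz h2
    · intro p hp _
      rw [Nat.mem_primeFactors] at hp
      exact leg_nec_aux b a c p hp.1 hp.2.1 (by rwa [mul_comm b a]) _ y x' z rfl hz (by linarith)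
  · rintro ⟨h1, h2⟩
    obtain ⟨u, hu⟩ := exists_sqrt_mod _ a ha h1
    obtain ⟨v, hv⟩ := exists_sqrt_mod _ b hb h2
    obtain ⟨x, y, z, hz, h⟩ := leg_suf a b c hsq hc u v hu hv
    exact ⟨a * x, y, z, hz, by push_cast; linear_combination (a : ℤ) * h⟩

lemma odd_pf {δ : ℕ} (hδ : δ % 2 = 1) (P : ℕ → Prop) :
    (∀ p ∈ δ.primeFactors, p ≠ 2 → P p) ↔ ∀ p ∈ δ.primeFactors, P p := by
  refine ⟨fun h p hp => h p hp ?_, fun h p hp _ => h p hp⟩
  rintro rfl
  have := (Nat.mem_primeFactors.1 hp).2.1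
  omega

lemma two_pf {δ : ℕ} (hδ : δ % 2 = 1) (P : ℕ → Prop) :
    (∀ p ∈ (2 * δ).primeFactors, p ≠ 2 → P p) ↔ ∀ p ∈ δ.primeFactors, P p := by
  constructor
  · intro h p hp
    rw [Nat.mem_primeFactors] at hp
    refine h p (Nat.mem_primeFactors.2 ⟨hp.1, Dvd.dvd.mul_left hp.2.1 2, by omega⟩) ?_
    rintro rfl
    have := hp.2.1
    omega
  · intro h p hp h2
    rw [Nat.mem_primeFactors] at hp
    refine h p (Nat.mem_primeFactors.2 ⟨hp.1, ?_, by omega⟩)
    refine ((Nat.Prime.dvd_mul hp.1).1 hp.2.1).resolve_left fun h3 => h2 ?_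
    exact (Nat.prime_dvd_prime_iff_eq hp.1 Nat.prime_two).1 h3

open Classical in
lemma cnt_eq (c₁ c₂ : ℤ) (m : ℕ) (P : ℕ → Prop)
    (h : ∀ δ δ' : ℕ, δ * δ' = m → (P δ ↔ (∀ p ∈ δ.primeFactors, jacobiSym (c₁ * δ') p = 1) ∧
      (∀ p ∈ δ'.primeFactors, jacobiSym (c₂ * δ) p = 1))) :
    (m.divisors.filter P).card = cnt c₁ c₂ m := by
  unfold cnt
  symm
  apply Finset.card_bij (fun x _ => x.1)
  · intro x hx
    rw [Finset.mem_filter, Nat.mem_divisorsAntidiagonal] at hx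
    rw [Finset.mem_filter, Nat.mem_divisors]
    exact ⟨⟨Dvd.intro _ hx.1.1, hx.1.2⟩, (h _ _ hx.1.1).2 hx.2⟩
  · intro x hx y hy hxy
    rw [Finset.mem_filter, Nat.mem_divisorsAntidiagonal] at hx hy
    refine Prod.ext hxy ?_
    have h0 : x.1 ≠ 0 := fun h0 => hx.1.2 (by rw [← hx.1.1, h0, zero_mul])
    apply Nat.eq_of_mul_eq_mul_left (Nat.pos_of_ne_zero h0)
    rw [hx.1.1, hxy, hy.1.1]
  · intro δ hδ
    rw [Finset.mem_filter, Nat.mem_divisors] at hδ
    obtain ⟨⟨⟨δ', h1⟩, h2⟩, h3⟩ := hδ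
    refine ⟨(δ, δ'), ?_, rfl⟩
    rw [Finset.mem_filter, Nat.mem_divisorsAntidiagonal]
    exact ⟨⟨h1.symm, h2⟩, (h _ _ h1.symm).1 h3⟩

open Classical in
lemma card_two_mul (m : ℕ) (hm : m % 2 = 1) (P : ℕ → Prop) :
    ((2 * m).divisors.filter P).card
      = (m.divisors.filter P).card + (m.divisors.filter fun δ => P (2 * δ)).card := by
  have e : (2 * m).divisors.filter P
      = m.divisors.filter P ∪ (m.divisors.filter fun δ => P (2 * δ)).image (fun δ => 2 * δ) := by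
    ext η
    simp only [Finset.mem_filter, Nat.mem_divisors, Finset.mem_union, Finset.mem_image]
    constructor
    · rintro ⟨⟨h1, _⟩, h2⟩
      by_cases h : 2 ∣ η
      · obtain ⟨δ, rfl⟩ := h
        exact Or.inr ⟨δ, ⟨⟨Nat.dvd_of_mul_dvd_mul_left (by norm_num) h1, by omega⟩, h2⟩, rfl⟩
      · refine Or.inl ⟨⟨?_, by omega⟩, h2⟩
        exact (Nat.Coprime.symm ((Nat.Prime.coprime_iff_not_dvd Nat.prime_two).2 h)).dvd_of_dvd_mul_left h1
    · rintro (⟨⟨h1, _⟩, h2⟩ | ⟨δ, ⟨⟨h1, _⟩, h2⟩, rfl⟩)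
      · exact ⟨⟨Dvd.dvd.mul_left h1 2, by omega⟩, h2⟩
      · exact ⟨⟨mul_dvd_mul_left 2 h1, by omega⟩, h2⟩
  rw [e, Finset.card_union_of_disjoint, Finset.card_image_of_injective _ (fun x y h => by omega)]
  rw [Finset.disjoint_left]
  intro η h1 h2
  simp only [Finset.mem_filter, Nat.mem_divisors, Finset.mem_image] at h1 h2
  obtain ⟨δ, _, rfl⟩ := h2
  have := Dvd.dvd.trans (Dvd.intro δ rfl) h1.1.1
  omega

lemma odd_parts {δ δ' m : ℕ} (h : δ * δ' = m) (hm : m % 2 = 1) : δ % 2 = 1 ∧ δ' % 2 = 1 := by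
  have : Odd (δ * δ') := h ▸ Nat.odd_iff.2 hm
  exact ⟨Nat.odd_iff.1 (Nat.Odd.of_mul_left this), Nat.odd_iff.1 (Nat.Odd.of_mul_right this)⟩

lemma sqf_two {m : ℕ} (hs : Squarefree m) (hm : m % 2 = 1) : Squarefree (2 * m) :=
  (Nat.squarefree_mul ((Nat.Prime.coprime_iff_not_dvd Nat.prime_two).2 (by omega))).2
    ⟨Nat.prime_two.squarefree, hs⟩

open Classical in
lemma cnt_11 {m : ℕ} (hs : Squarefree m) (hm : m % 2 = 1) :
    (m.divisors.filter (Sol m)).card = cnt 1 1 m := by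
  apply cnt_eq
  intro δ δ' h
  obtain ⟨o1, o2⟩ := odd_parts h hm
  have := leg δ δ' 1 (by rw [mul_one, h]; exact hs) (Or.inl rfl)
  rw [h, mul_one, odd_pf o1, odd_pf o2] at this
  simpa using this

open Classical in
lemma cnt_22 {m : ℕ} (hs : Squarefree m) (hm : m % 2 = 1) :
    (m.divisors.filter fun δ => Sol m (2 * δ)).card = cnt 2 2 m := by
  apply cnt_eq
  intro δ δ' h
  obtain ⟨o1, o2⟩ := odd_parts h hm
  have := leg δ δ' 2 (by rw [h, mul_comm]; exact sqf_two hs hm) (Or.inr rfl)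
  rw [h, mul_comm δ 2, odd_pf o1, odd_pf o2] at this
  simpa using this

open Classical in
lemma cnt_21 {m : ℕ} (hs : Squarefree m) (hm : m % 2 = 1) :
    (m.divisors.filter (Sol (2 * m))).card = cnt 2 1 m := by
  apply cnt_eq
  intro δ δ' h
  obtain ⟨o1, o2⟩ := odd_parts h hm
  have e : δ * (2 * δ') = 2 * m := by rw [← h]; ring
  have := leg δ (2 * δ') 1 (by rw [mul_one, e]; exact sqf_two hs hm) (Or.inl rfl)
  rw [e, mul_one, odd_pf o1, two_pf o2] at this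
  simpa using this

open Classical in
lemma cnt_12 {m : ℕ} (hs : Squarefree m) (hm : m % 2 = 1) :
    (m.divisors.filter fun δ => Sol (2 * m) (2 * δ)).card = cnt 1 2 m := by
  apply cnt_eq
  intro δ δ' h
  obtain ⟨o1, o2⟩ := odd_parts h hm
  have e : 2 * δ * δ' = 2 * m := by rw [← h]; ring
  have := leg (2 * δ) δ' 1 (by rw [mul_one, e]; exact sqf_two hs hm) (Or.inl rfl)
  rw [e, mul_one, two_pf o1, odd_pf o2] at this
  simpa using this

end Pool.Agent.MP_5d10af_nt
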