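import Pool.Agent.MP_5d10af_nt.GField
import Pool.Agent.MP_5d10af_nt.GLeg

/-! Ambiguous ideal classes of imaginary quadratic rings. -/

set_option autoImplicit false

namespace Pool.Agent.MP_5d10af_nt

open QuadraticAlgebra Ideal

section cl
variable {R : Type*} [CommRing R] [IsDedekindDomain R]

open Classical in
/-- the class of an ideal -/
noncomputable def cl (I : Ideal R) : ClassGroup R :=
  if h : I = 0 then 1 else ClassGroup.mk0 ⟨I, mem_nonZeroDivisors_of_ne_zero h⟩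

lemma cl_eq {I : Ideal R} (h : I ≠ 0) :
    cl I = ClassGroup.mk0 ⟨I, mem_nonZeroDivisors_of_ne_zero h⟩ := dif_neg h

lemma cl_mul {I J : Ideal R} (hI : I ≠ 0) (hJ : J ≠ 0) : cl (I * J) = cl I * cl J := by
  rw [cl_eq hI, cl_eq hJ, cl_eq (mul_ne_zero hI hJ), ← map_mul]; rfl

lemma cl_eq_one {I : Ideal R} (hI : I ≠ 0) : cl I = 1 ↔ ∃ α, I = span {α} := by
  rw [cl_eq hI, ClassGroup.mk0_eq_one_iff]
  exact ⟨fun h => h.principal, fun ⟨α, h⟩ => ⟨α, h⟩⟩

omit [IsDedekindDomain R] in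
lemma span_ne {α : R} (h : α ≠ 0) : (span {α} : Ideal R) ≠ 0 := by
  simpa using h

lemma cl_span {α : R} (h : α ≠ 0) : cl (span {α} : Ideal R) = 1 :=
  (cl_eq_one (span_ne h)).2 ⟨α, rfl⟩

lemma cl_surj (y : ClassGroup R) : ∃ I : Ideal R, I ≠ 0 ∧ cl I = y := by
  obtain ⟨⟨I, hI⟩, rfl⟩ := ClassGroup.mk0_surjective y
  exact ⟨I, nonZeroDivisors.ne_zero hI, cl_eq (nonZeroDivisors.ne_zero hI)⟩

lemma cl_sq {I : Ideal R} (hI : I ≠ 0) : cl (I ^ 2) = cl I ^ 2 := by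
  rw [sq, sq, cl_mul hI hI]

lemma sq_inj {I J : Ideal R} (h : I ^ 2 = J ^ 2) : I = J :=
  le_antisymm
    (dvd_iff_le.1 ((UniqueFactorizationMonoid.pow_dvd_pow_iff_dvd two_ne_zero).1 (h ▸ dvd_rfl)))
    (dvd_iff_le.1 ((UniqueFactorizationMonoid.pow_dvd_pow_iff_dvd two_ne_zero).1 (h ▸ dvd_rfl)))

end cl

lemma sqf_eq {s t : ℕ} (hs : Squarefree s) (ht : Squarefree t) {x y : ℤ} (hx : x ≠ 0)
    (h : s * x ^ 2 = t * y ^ 2) : s = t := by
  have h1 : x ∣ y := sqf_dvd (Int.squarefree_natCast.2 ht) ⟨s, by rw [← h]; ring⟩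
  have h2 : y ∣ x := sqf_dvd (Int.squarefree_natCast.2 hs) ⟨t, by rw [h]; ring⟩
  have h3 : x ^ 2 = y ^ 2 := by
    rcases Int.natAbs_eq_natAbs_iff.1 (Int.natAbs_eq_of_dvd_dvd h1 h2) with h | h <;> rw [h]
    ring
  rw [← h3] at h
  exact_mod_cast mul_right_cancel₀ (pow_ne_zero 2 hx) h

/-- the data of an imaginary quadratic ring: `ℚ(√-m)`, `r` the radical of the discriminant -/
structure Imag (a b : ℤ) (m r : ℕ) : Prop where
  sqf : Squarefree m
  ne : m ≠ 1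
  cases : (b = 1 ∧ 4 * a + 1 = -m ∧ r = m) ∨
    (b = 0 ∧ a = -m ∧ ((m % 4 = 2 ∧ r = m) ∨ (m % 4 = 1 ∧ r = 2 * m)))

variable {a b : ℤ} {m r : ℕ}

lemma Imag.fund (h : Imag a b m r) : Fund a b := by
  have hs : Squarefree (-(m : ℤ)) := by
    rw [← Int.squarefree_natAbs]; simpa using h.sqf
  rcases h.cases with ⟨h1, h2, _⟩ | ⟨h1, h2, h3⟩
  · exact Or.inl ⟨h1, h2 ▸ hs⟩
  · exact Or.inr ⟨h1, h2 ▸ hs, by omega⟩

lemma Imag.four_norm (h : Imag a b m r) (z : QuadraticAlgebra ℤ a b) :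
    ∃ v : ℤ, 4 * z.norm = trace z ^ 2 + m * v ^ 2 := by
  rcases h.cases with ⟨h1, h2, _⟩ | ⟨h1, h2, _⟩
  · refine ⟨z.im, ?_⟩
    rw [norm_def, trace_def]
    have : (m : ℤ) = -(4 * a + 1) := by linarith
    rw [this]
    generalize z.re = u, z.im = v
    rw [h1]; ring
  · refine ⟨2 * z.im, ?_⟩
    rw [norm_def, trace_def]
    generalize z.re = u, z.im = v
    rw [h1, h2]; ring

lemma Imag.norm_nonneg (h : Imag a b m r) (z : QuadraticAlgebra ℤ a b) : 0 ≤ z.norm := by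
  obtain ⟨v, hv⟩ := h.four_norm z
  have : 0 ≤ trace z ^ 2 + m * v ^ 2 := by positivity
  linarith

lemma Imag.exists_pi (h : Imag a b m r) : ∃ π : QuadraticAlgebra ℤ a b, π * π = -(m : _) ∧
    ∀ x y : ℤ, QuadraticAlgebra.norm ((x : QuadraticAlgebra ℤ a b) + (y : QuadraticAlgebra ℤ a b) * π) = x ^ 2 + m * y ^ 2 := by
  rcases h.cases with ⟨rfl, h2, _⟩ | ⟨rfl, h2, _⟩
  · have : (m : ℤ) = -(4 * a + 1) := by linarith
    refine ⟨⟨-1, 2⟩, ?_, fun x y => ?_⟩
    · ext <;> simp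
      linarith
    · simp [norm_def, this]; ring
  · have : (m : ℤ) = -a := by linarith
    refine ⟨⟨0, 1⟩, ?_, fun x y => ?_⟩
    · ext <;> simp
      linarith
    · simp [norm_def, this]; ring

lemma Imag.sqf_r (h : Imag a b m r) : Squarefree r := by
  rcases h.cases with ⟨_, _, h3⟩ | ⟨_, _, ⟨_, h3⟩ | ⟨h4, h3⟩⟩
  · exact h3 ▸ h.sqf
  · exact h3 ▸ h.sqf
  · exact h3 ▸ sqf_two h.sqf (by omega)

lemma dvd_two_mul {η m : ℕ} (h : η ∣ 2 * m) : η ∣ m ∨ ∃ δ, δ ∣ m ∧ η = 2 * δ := by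
  by_cases h2 : 2 ∣ η
  · obtain ⟨δ, rfl⟩ := h2
    exact Or.inr ⟨δ, Nat.dvd_of_mul_dvd_mul_left (by norm_num) h, rfl⟩
  · exact Or.inl
      ((Nat.Coprime.symm ((Nat.Prime.coprime_iff_not_dvd Nat.prime_two).2 h2)).dvd_of_dvd_mul_left h)

lemma Imag.tau (h : Imag a b m r) {η : ℕ} (hη : η ∣ r) :
    ∃ τ c : ℕ, τ ∣ r ∧ c ≠ 0 ∧ η * τ = m * c ^ 2 := by
  have base : ∀ δ, δ ∣ m → ∃ δ', δ' ∣ m ∧ δ * δ' = m := by
    rintro δ ⟨δ', h⟩
    exact ⟨δ', Dvd.intro_left δ h.symm, h.symm⟩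
  have c1 : r = m → ∃ τ c : ℕ, τ ∣ r ∧ c ≠ 0 ∧ η * τ = m * c ^ 2 := by
    rintro rfl
    obtain ⟨δ', h1, h2⟩ := base η hη
    exact ⟨δ', 1, h1, one_ne_zero, by rw [h2]; ring⟩
  rcases h.cases with ⟨_, _, h3⟩ | ⟨_, _, ⟨_, h3⟩ | ⟨h4, rfl⟩⟩
  · exact c1 h3
  · exact c1 h3
  · rcases dvd_two_mul hη with h5 | ⟨δ, h5, rfl⟩
    · obtain ⟨δ', h1, h2⟩ := base η h5
      exact ⟨δ', 1, Dvd.dvd.mul_left h1 2, one_ne_zero, by rw [h2]; ring⟩
    · obtain ⟨δ', h1, h2⟩ := base δ h5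
      exact ⟨2 * δ', 2, mul_dvd_mul_left 2 h1, two_ne_zero, by rw [← h2]; ring⟩

lemma sq_pair {R : Type*} [CommRing R] (g x : R) (h1 : g ∣ x * x)
    (h2 : ∃ u v w : R, g = u * (g * g) + v * (g * x) + w * (x * x)) :
    (span {g, x} : Ideal R) ^ 2 = span {g} := by
  have m1 : g ∈ (span {g, x} : Ideal R) := subset_span (by simp)
  have m2 : x ∈ (span {g, x} : Ideal R) := subset_span (by simp)
  apply le_antisymm
  · rw [sq, Ideal.mul_le]
    intro s hs t ht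
    obtain ⟨s1, s2, rfl⟩ := mem_span_pair.1 hs
    obtain ⟨t1, t2, rfl⟩ := mem_span_pair.1 ht
    obtain ⟨k, hk⟩ := h1
    exact mem_span_singleton.2 ⟨s1 * t1 * g + s1 * t2 * x + s2 * t1 * x + s2 * t2 * k, by
      linear_combination s2 * t2 * hk⟩
  · obtain ⟨u, v, w, h⟩ := h2
    rw [span_le, Set.singleton_subset_iff, sq]
    show g ∈ _
    rw [h]
    rw [← h]
    have := Ideal.add_mem _ (Ideal.add_mem _ (Ideal.mul_mem_left _ u (mul_mem_mul m1 m1))
      (Ideal.mul_mem_left _ v (mul_mem_mul m1 m2))) (Ideal.mul_mem_left _ w (mul_mem_mul m2 m2))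
    rwa [← h] at this

lemma Imag.amb_ex (h : Imag a b m r) {η : ℕ} (hη : η ∣ r) :
    ∃ J : Ideal (QuadraticAlgebra ℤ a b), J ^ 2 = span {(η : QuadraticAlgebra ℤ a b)} := by
  obtain ⟨π, hπ, -⟩ := h.exists_pi
  have base : ∀ δ : ℕ, δ ∣ m →
      ∃ J : Ideal (QuadraticAlgebra ℤ a b), J ^ 2 = span {(δ : QuadraticAlgebra ℤ a b)} := by
    rintro δ ⟨δ', hm⟩
    have hc : IsCoprime (δ : ℤ) (δ' : ℤ) :=
      Nat.isCoprime_iff_coprime.2 (Nat.coprime_of_squarefree_mul (hm ▸ h.sqf))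
    obtain ⟨s, t, hst⟩ := hc
    have hst' := congrArg (Int.cast : ℤ → QuadraticAlgebra ℤ a b) hst
    rw [hm] at hπ
    push_cast at hst' hπ
    refine ⟨span {(δ : QuadraticAlgebra ℤ a b), π}, sq_pair _ _ ⟨-δ', by rw [hπ]; ring⟩
      ⟨s, 0, -t, ?_⟩⟩
    rw [hπ]; linear_combination (-(δ : QuadraticAlgebra ℤ a b)) * hst'
  rcases h.cases with ⟨_, _, h3⟩ | ⟨_, _, ⟨_, h3⟩ | ⟨h4, rfl⟩⟩
  · exact base η (h3 ▸ hη)
  · exact base η (h3 ▸ hη)
  · rcases dvd_two_mul hη with h5 | ⟨δ, h5, rfl⟩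
    · exact base η h5
    · obtain ⟨J, hJ⟩ := base δ h5
      obtain ⟨k, hk⟩ : ∃ k, m = 4 * k + 1 := ⟨m / 4, by omega⟩
      rw [hk] at hπ
      push_cast at hπ
      have h2 := sq_pair (2 : QuadraticAlgebra ℤ a b) (1 + π) ⟨π - 2 * k, by linear_combination hπ⟩
        ⟨-(k : QuadraticAlgebra ℤ a b), 1, -1, by linear_combination hπ⟩
      refine ⟨span {2, 1 + π} * J, ?_⟩
      rw [mul_pow, h2, hJ, span_singleton_mul_span_singleton]
      push_cast; rfl

lemma int_dvd {n k : ℤ} (h : (n : QuadraticAlgebra ℤ a b) ∣ (k : QuadraticAlgebra ℤ a b)) : n ∣ k := by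
  obtain ⟨z, hz⟩ := h
  have := congrArg QuadraticAlgebra.re hz
  exact ⟨z.re, by simpa using this⟩

lemma trace_dvd {n : ℤ} {z : QuadraticAlgebra ℤ a b} (h : (n : QuadraticAlgebra ℤ a b) ∣ z) :
    n ∣ trace z := by
  obtain ⟨w, rfl⟩ := h
  exact ⟨trace w, by simp [trace_def]; ring⟩

lemma norm_dvd {n : ℤ} {z : QuadraticAlgebra ℤ a b} (h : (n : QuadraticAlgebra ℤ a b) ∣ z) :
    n ^ 2 ∣ z.norm := by
  obtain ⟨w, rfl⟩ := h
  exact ⟨w.norm, by simp⟩

lemma trace_sq (z : QuadraticAlgebra ℤ a b) : trace (z ^ 2) = trace z ^ 2 - 2 * z.norm := by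
  simp [trace_def, norm_def, sq]; ring

lemma sq_dvd_trace {n : ℤ} {z : QuadraticAlgebra ℤ a b} (h : (n : QuadraticAlgebra ℤ a b) ∣ z ^ 2) :
    n ∣ trace z ^ 2 := by
  have h1 := trace_dvd h
  have h2 := norm_dvd h
  rw [map_pow, Int.pow_dvd_pow_iff two_ne_zero] at h2
  rw [trace_sq] at h1
  have := h1.add (h2.mul_left 2)
  simpa using this

lemma Imag.amb_dvd (h : Imag a b m r) {η : ℕ} (hη : Squarefree η)
    {J : Ideal (QuadraticAlgebra ℤ a b)} (hJ : J ^ 2 = span {(η : QuadraticAlgebra ℤ a b)}) :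
    η ∣ r := by
  have key : ∀ p : ℕ, p.Prime → p ∣ η → (p : ℤ) ∣ b ^ 2 + 4 * a := by
    intro p hp hpη
    have hpZ : Prime (p : ℤ) := Nat.prime_iff_prime_int.1 hp
    by_contra hd
    have t : ∀ x ∈ J, (p : ℤ) ∣ trace x := by
      intro x hx
      have h1 : x ^ 2 ∈ J ^ 2 := Ideal.pow_mem_pow hx 2
      rw [hJ, mem_span_singleton] at h1
      have h2 := sq_dvd_trace (n := η) (by simpa using h1)
      exact hpZ.dvd_of_dvd_pow ((Int.natCast_dvd_natCast.2 hpη).trans h2)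
    have le : J ≤ span {(p : QuadraticAlgebra ℤ a b)} := by
      intro x hx
      have t1 := t x hx
      have t2 := t (omega * x) (J.mul_mem_left _ hx)
      have e2 : trace (omega * x) = b * x.re + (2 * a + b ^ 2) * x.im := by
        simp [trace_def]; ring
      rw [trace_def] at t1
      rw [e2] at t2
      have d1 : (p : ℤ) ∣ (b ^ 2 + 4 * a) * x.re := by
        have := (t1.mul_left (2 * a + b ^ 2)).sub (t2.mul_left b)
        have e : (b ^ 2 + 4 * a) * x.re = (2 * a + b ^ 2) * (2 * x.re + b * x.im)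
          - b * (b * x.re + (2 * a + b ^ 2) * x.im) := by ring
        rw [e]; exact this
      have d2 : (p : ℤ) ∣ (b ^ 2 + 4 * a) * x.im := by
        have := (t2.mul_left 2).sub (t1.mul_left b)
        have e : (b ^ 2 + 4 * a) * x.im = 2 * (b * x.re + (2 * a + b ^ 2) * x.im)
          - b * (2 * x.re + b * x.im) := by ring
        rw [e]; exact this
      obtain ⟨u, hu⟩ := (hpZ.dvd_or_dvd d1).resolve_left hd
      obtain ⟨v, hv⟩ := (hpZ.dvd_or_dvd d2).resolve_left hd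
      exact mem_span_singleton.2 ⟨⟨u, v⟩, by ext <;> simp [hu, hv]⟩
    have le2 := Ideal.pow_right_mono le 2
    rw [hJ, span_singleton_pow, span_singleton_le_span_singleton] at le2
    have h3 : ((p * p : ℕ) : ℤ) ∣ (η : ℤ) := int_dvd (a := a) (b := b) (by rw [sq] at le2; simpa using le2)
    exact hp.one_lt.ne' (Nat.isUnit_iff.1 (hη p (Int.natCast_dvd_natCast.1 h3)))
  rw [← Nat.prod_primeFactors_of_squarefree hη, Nat.prod_primeFactors_dvd_iff h.sqf_r.ne_zero]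
  intro p hp
  rw [Nat.mem_primeFactors] at hp ⊢
  refine ⟨hp.1, ?_, h.sqf_r.ne_zero⟩
  have h1 := key p hp.1 hp.2.1
  have h4 : ∀ k : ℕ, p ∣ 4 * k → p ∣ 2 * k := fun k hk => by
    rcases (Nat.Prime.dvd_mul hp.1).1 hk with h5 | h5
    · exact Dvd.dvd.mul_right (hp.1.dvd_of_dvd_pow (n := 2) h5) k
    · exact Dvd.dvd.mul_left h5 2
  rcases h.cases with ⟨rfl, h2, rfl⟩ | ⟨rfl, rfl, h3⟩
  · have : (1 : ℤ) ^ 2 + 4 * a = -r := by linarith
    rw [this, dvd_neg] at h1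
    exact Int.natCast_dvd_natCast.1 h1
  · have e : (0 : ℤ) ^ 2 + 4 * -(m : ℤ) = -((4 * m : ℕ) : ℤ) := by push_cast; ring
    rw [e, dvd_neg, Int.natCast_dvd_natCast] at h1
    rcases h3 with ⟨h5, rfl⟩ | ⟨_, rfl⟩
    · rcases (Nat.Prime.dvd_mul hp.1).1 (h4 _ h1) with h6 | h6
      · exact h6.trans (by omega)
      · exact h6
    · exact h4 _ h1

variable [IsDedekindDomain (QuadraticAlgebra ℤ a b)]

lemma Imag.absNorm_span (h : Imag a b m r) (z : QuadraticAlgebra ℤ a b) :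
    (absNorm (span {z}) : ℤ) = z.norm := by
  rw [absNorm_span_singleton, alg_norm, Int.natCast_natAbs, abs_of_nonneg (h.norm_nonneg z)]

lemma Imag.absNorm_amb (h : Imag a b m r) {η : ℕ} {J : Ideal (QuadraticAlgebra ℤ a b)}
    (hJ : J ^ 2 = span {(η : QuadraticAlgebra ℤ a b)}) : absNorm J = η := by
  have := h.absNorm_span η
  rw [← hJ, map_pow, QuadraticAlgebra.norm_natCast] at this
  have h2 : absNorm J ^ 2 = η ^ 2 := by exact_mod_cast this
  exact (Nat.pow_left_injective two_ne_zero) h2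

lemma norm_ne {z : QuadraticAlgebra ℤ a b} (hz : z ≠ 0) : z.norm ≠ 0 := by
  intro h
  have := algebraMap_norm_eq_mul_star z
  rw [h, map_zero] at this
  rcases mul_eq_zero.1 this.symm with h1 | h1
  · exact hz h1
  · exact hz (star_eq_zero.1 h1)

lemma amb_ne {η : ℕ} (hη : η ≠ 0) {J : Ideal (QuadraticAlgebra ℤ a b)}
    (hJ : J ^ 2 = span {(η : QuadraticAlgebra ℤ a b)}) : J ≠ 0 := by
  rintro rfl
  exact span_ne (Nat.cast_ne_zero.2 hη) (by rw [← hJ]; simp)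

lemma amb_cl {η : ℕ} (hη : η ≠ 0) {J : Ideal (QuadraticAlgebra ℤ a b)}
    (hJ : J ^ 2 = span {(η : QuadraticAlgebra ℤ a b)}) : cl J ^ 2 = 1 := by
  rw [← cl_sq (amb_ne hη hJ), hJ, cl_span (Nat.cast_ne_zero.2 hη)]

lemma Imag.surj (h : Imag a b m r) (y : ClassGroup (QuadraticAlgebra ℤ a b)) (hy : y ^ 2 = 1) :
    ∃ (η : ℕ) (J : Ideal (QuadraticAlgebra ℤ a b)), Squarefree η ∧
      J ^ 2 = span {(η : QuadraticAlgebra ℤ a b)} ∧ cl J = y := by
  obtain ⟨I, I0, rfl⟩ := cl_surj y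
  rw [← cl_sq I0, cl_eq_one (pow_ne_zero 2 I0)] at hy
  obtain ⟨α, hα⟩ := hy
  set g := absNorm I with hg
  have g0 : g ≠ 0 := by rw [hg]; simpa [absNorm_eq_zero_iff] using I0
  have hN : α.norm = (g : ℤ) ^ 2 := by
    rw [← h.absNorm_span, ← hα, map_pow]; push_cast; rfl
  have hs : α * star α = (g : QuadraticAlgebra ℤ a b) ^ 2 := by
    rw [← algebraMap_norm_eq_mul_star, hN]; simp
  obtain ⟨n, J, n0, hJ, hc⟩ : ∃ (n : ℕ) (J : Ideal (QuadraticAlgebra ℤ a b)), n ≠ 0 ∧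
      J ^ 2 = span {(n : QuadraticAlgebra ℤ a b)} ∧ cl J = cl I := by
    by_cases hμ : (g : QuadraticAlgebra ℤ a b) + α = 0
    · refine ⟨g, I, g0, ?_, rfl⟩
      rw [hα, ← span_singleton_neg, ← eq_neg_of_add_eq_zero_left hμ]
    · set μ := (g : QuadraticAlgebra ℤ a b) + α with hμdef
      have s0 : star μ ≠ 0 := fun h0 => hμ (star_eq_zero.1 h0)
      refine ⟨g * μ.norm.natAbs, span {star μ} * I,
        mul_ne_zero g0 (Int.natAbs_ne_zero.2 (norm_ne hμ)), ?_, ?_⟩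
      · rw [mul_pow, hα, span_singleton_pow, span_singleton_mul_span_singleton]
        congr 2
        have e1 : ((μ.norm.natAbs : ℕ) : QuadraticAlgebra ℤ a b) = μ * star μ := by
          rw [← algebraMap_norm_eq_mul_star, ← Int.cast_natCast, Int.natCast_natAbs,
            abs_of_nonneg (h.norm_nonneg μ)]
          simp
        have e2 : star μ = g + star α := by rw [hμdef]; simp
        push_cast
        rw [e1]
        have e3 : star μ * α = g * μ := by rw [e2, hμdef]; linear_combination hs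
        linear_combination star μ * e3
      · rw [cl_mul (span_ne s0) I0, cl_span s0, one_mul]
  obtain ⟨δ, k, -, k0, hk, hδ⟩ := Nat.sq_mul_squarefree_of_pos (Nat.pos_of_ne_zero n0)
  have k0' : (k : QuadraticAlgebra ℤ a b) ≠ 0 := Nat.cast_ne_zero.2 k0.ne'
  have e : J ^ 2 = span {(k : QuadraticAlgebra ℤ a b)} ^ 2 * span {(δ : QuadraticAlgebra ℤ a b)} := by
    rw [hJ, span_singleton_pow, span_singleton_mul_span_singleton, ← hk]; push_cast; rfl
  obtain ⟨J', rfl⟩ := (UniqueFactorizationMonoid.pow_dvd_pow_iff_dvd two_ne_zero).1 ⟨_, e⟩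
  rw [mul_pow] at e
  have e' := mul_left_cancel₀ (pow_ne_zero 2 (span_ne k0')) e
  refine ⟨δ, J', hδ, e', ?_⟩
  rw [← hc, cl_mul (span_ne k0') (amb_ne hδ.ne_zero e'), cl_span k0', one_mul]

lemma Imag.fiber (h : Imag a b m r) {η η' τ c : ℕ} (hη : Squarefree η) (hη' : Squarefree η')
    (hτ : Squarefree τ) (c0 : c ≠ 0) (hc : η * τ = m * c ^ 2)
    {J J' : Ideal (QuadraticAlgebra ℤ a b)} (hJ : J ^ 2 = span {(η : QuadraticAlgebra ℤ a b)})
    (hJ' : J' ^ 2 = span {(η' : QuadraticAlgebra ℤ a b)}) (e : cl J = cl J') :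
    η' = η ∨ η' = τ := by
  have J0 := amb_ne hη.ne_zero hJ
  have J0' := amb_ne hη'.ne_zero hJ'
  have h1 : cl (J * J') = 1 := by rw [cl_mul J0 J0', ← e, ← sq, amb_cl hη.ne_zero hJ]
  obtain ⟨α, hα⟩ := (cl_eq_one (mul_ne_zero J0 J0')).1 h1
  have hN : α.norm = η * η' := by
    rw [← h.absNorm_span, ← hα, map_mul, h.absNorm_amb hJ, h.absNorm_amb hJ']; push_cast; rfl
  have h2 : ((η * η' : ℤ) : QuadraticAlgebra ℤ a b) ∣ α ^ 2 := by
    rw [← span_singleton_le_span_singleton, ← span_singleton_pow, ← hα, mul_pow, hJ, hJ',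
      span_singleton_mul_span_singleton]
    push_cast; rfl
  obtain ⟨k, hk⟩ := sq_dvd_trace h2
  obtain ⟨v, hv⟩ := h.four_norm α
  rw [hN] at hv
  generalize trace α = t at hk hv
  have e0 : (0 : ℤ) < η := by exact_mod_cast Nat.pos_of_ne_zero hη.ne_zero
  have e0' : (0 : ℤ) < η' := by exact_mod_cast Nat.pos_of_ne_zero hη'.ne_zero
  have N0 : (0 : ℤ) < η * η' := mul_pos e0 e0'
  have k1 : 0 ≤ k := by
    by_contra hcon
    have : k ≤ -1 := by omega
    have := mul_le_mul_of_nonneg_left this N0.le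
    nlinarith [sq_nonneg t]
  have k2 : k ≤ 4 := by
    by_contra hcon
    have : 5 ≤ k := by omega
    have := mul_le_mul_of_nonneg_left this N0.le
    have : (0 : ℤ) ≤ m * v ^ 2 := by positivity
    linarith
  have hc' : (η : ℤ) * τ = m * c ^ 2 := by exact_mod_cast hc
  have c0' : (c : ℤ) ≠ 0 := by exact_mod_cast c0
  have A : ∀ w u : ℤ, w ≠ 0 → w ^ 2 * (η * η') = u ^ 2 → η' = η := fun w u w0 hw =>
    sqf_eq hη' hη (x := w * η) (y := u) (mul_ne_zero w0 e0.ne') (by linear_combination η * hw)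
  have B : ∀ w : ℤ, w ≠ 0 → w ^ 2 * (η * η') = m * v ^ 2 → η' = τ := fun w w0 hw =>
    sqf_eq hη' hτ (x := w * c) (y := v) (mul_ne_zero w0 c0') (by
      apply mul_left_cancel₀ e0.ne'
      linear_combination (c : ℤ) ^ 2 * hw - v ^ 2 * hc')
  interval_cases k
  · exact Or.inr (B 2 two_ne_zero (by linarith))
  · exact Or.inl (A 1 t one_ne_zero (by linarith))
  · exfalso
    have t0 : t ≠ 0 := by rintro rfl; linarith
    exact h.ne (sqf_eq squarefree_one h.sqf (x := t) (y := v) t0 (by push_cast; linarith)).symm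
  · exact Or.inr (B 1 one_ne_zero (by linarith))
  · exact Or.inl (A 2 t two_ne_zero (by linarith))

lemma Imag.tau_cl (h : Imag a b m r) {η τ c : ℕ} (η0 : η ≠ 0) (τ0 : τ ≠ 0) (c0 : c ≠ 0)
    (hc : η * τ = m * c ^ 2)
    {J J' : Ideal (QuadraticAlgebra ℤ a b)} (hJ : J ^ 2 = span {(η : QuadraticAlgebra ℤ a b)})
    (hJ' : J' ^ 2 = span {(τ : QuadraticAlgebra ℤ a b)}) : cl J' = cl J := by
  obtain ⟨π, hπ, -⟩ := h.exists_pi
  have J0 := amb_ne η0 hJ
  have J0' := amb_ne τ0 hJ'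
  have e : J * J' = span {c * π} := by
    apply sq_inj
    rw [mul_pow, hJ, hJ', span_singleton_mul_span_singleton, span_singleton_pow,
      ← span_singleton_neg]
    congr 2
    have := congrArg (Nat.cast : ℕ → QuadraticAlgebra ℤ a b) hc
    push_cast at this
    linear_combination -this - (c : QuadraticAlgebra ℤ a b) ^ 2 * hπ
  have h1 : cl J * cl J' = 1 := by
    rw [← cl_mul J0 J0']
    exact (cl_eq_one (mul_ne_zero J0 J0')).2 ⟨_, e⟩
  have h2 := amb_cl η0 hJ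
  rw [sq] at h2
  exact mul_left_cancel (h1.trans h2.symm)

/-- conjugation of ideals -/
abbrev cj (I : Ideal (QuadraticAlgebra ℤ a b)) : Ideal (QuadraticAlgebra ℤ a b) :=
  I.map (starRingEnd _)

omit [IsDedekindDomain (QuadraticAlgebra ℤ a b)] in
lemma cj_span (z : QuadraticAlgebra ℤ a b) : cj (span {z}) = span {star z} := by
  rw [cj, map_span, Set.image_singleton]; rfl

omit [IsDedekindDomain (QuadraticAlgebra ℤ a b)] in
lemma mul_cj (h : Fund a b) (I : Ideal (QuadraticAlgebra ℤ a b)) : ∃ g, I * cj I = span {g} := by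
  obtain ⟨g, hg⟩ := (IsPrincipalIdealRing.principal
    ((I * cj I).comap (algebraMap ℤ (QuadraticAlgebra ℤ a b)))).principal
  have mem : ∀ n : ℤ, algebraMap ℤ (QuadraticAlgebra ℤ a b) n ∈ I * cj I ↔ g ∣ n := fun n => by
    rw [← mem_comap, hg]; exact mem_span_singleton
  have mm : ∀ x ∈ I, ∀ y ∈ I, x * star y ∈ I * cj I := fun x hx y hy =>
    mul_mem_mul hx (mem_map_of_mem (starRingEnd _) hy)
  refine ⟨g, le_antisymm ?_ ?_⟩
  · rw [Ideal.mul_le]
    intro x hx s hs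
    obtain ⟨y, hy, rfl⟩ := (mem_map_iff_of_surjective (starRingEnd _) star_involutive.surjective).1 hs
    rw [mem_span_singleton, starRingEnd_apply]
    apply h.key'
    · rw [← mem, algebraMap_trace_eq_add_star]
      refine Ideal.add_mem _ (mm x hx y hy) ?_
      have := mm y hy x hx
      simpa [mul_comm] using this
    · have h1 : g ∣ x.norm := by rw [← mem, algebraMap_norm_eq_mul_star]; exact mm x hx x hx
      have h2 : g ∣ y.norm := by rw [← mem, algebraMap_norm_eq_mul_star]; exact mm y hy y hy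
      rw [map_mul, sq]
      exact mul_dvd_mul h1 (by simpa using h2)
  · rw [span_le, Set.singleton_subset_iff]
    simpa using (mem g).2 dvd_rfl

lemma Imag.sq_iff (h : Imag a b m r) {η : ℕ} (η0 : η ≠ 0) {J : Ideal (QuadraticAlgebra ℤ a b)}
    (hJ : J ^ 2 = span {(η : QuadraticAlgebra ℤ a b)}) : (∃ x, x ^ 2 = cl J) ↔ Sol m η := by
  have J0 := amb_ne η0 hJ
  constructor
  · rintro ⟨x, hx⟩
    obtain ⟨G, G0, rfl⟩ := cl_surj x
    have h1 : cl (J * G ^ 2) = 1 := by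
      rw [cl_mul J0 (pow_ne_zero 2 G0), cl_sq G0, hx, ← sq, amb_cl η0 hJ]
    obtain ⟨β, hβ⟩ := (cl_eq_one (mul_ne_zero J0 (pow_ne_zero 2 G0))).1 h1
    have hN : β.norm = η * (absNorm G : ℤ) ^ 2 := by
      rw [← h.absNorm_span, ← hβ, map_mul, map_pow, h.absNorm_amb hJ]; push_cast; rfl
    obtain ⟨v, hv⟩ := h.four_norm β
    have g0 : absNorm G ≠ 0 := by simpa [absNorm_eq_zero_iff] using G0
    refine ⟨trace β, v, 2 * absNorm G, mul_ne_zero two_ne_zero (by exact_mod_cast g0), ?_⟩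
    rw [← hv, hN]; ring
  · rintro ⟨x, y, z, z0, hs⟩
    obtain ⟨π, -, hπ⟩ := h.exists_pi
    have hN := (hπ x y).trans hs
    generalize (x : QuadraticAlgebra ℤ a b) + (y : QuadraticAlgebra ℤ a b) * π = α at hN
    have α0 : α ≠ 0 := by
      rintro rfl
      rw [QuadraticAlgebra.norm_zero] at hN
      exact mul_ne_zero (Nat.cast_ne_zero.2 η0) (pow_ne_zero 2 z0) hN.symm
    set k : QuadraticAlgebra ℤ a b := η * z with hk
    have k0 : k ≠ 0 := mul_ne_zero (Nat.cast_ne_zero.2 η0) (Int.cast_ne_zero.2 z0)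
    have ks : star k = k := by rw [hk]; simp
    have hcJ : cj J = J := by
      apply sq_inj
      rw [cj, ← Ideal.map_pow, hJ]
      have := cj_span (η : QuadraticAlgebra ℤ a b)
      simpa using this
    set A := span {α} * J with hA
    have A0 : A ≠ 0 := mul_ne_zero (span_ne α0) J0
    have hAA : A * cj A = span {k} * span {k} := by
      have e1 : cj A = span {star α} * J := by
        rw [hA, cj, Ideal.map_mul]
        exact congrArg₂ (· * ·) (cj_span α) hcJ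
      rw [e1, hA, mul_mul_mul_comm, ← sq J, hJ]
      simp only [span_singleton_mul_span_singleton]
      congr 2
      rw [← algebraMap_norm_eq_mul_star, hN, hk]
      simp; ring
    set G := A + span {k} with hG
    set H := A + cj A + span {k} with hH
    have hcG : cj G = cj A + span {k} := by
      rw [hG, cj, Ideal.add_eq_sup, Ideal.map_sup, Ideal.add_eq_sup]
      congr 1
      exact (cj_span k).trans (by rw [ks])
    have e1 : G * G = A * H := by
      have : A * span {k} + A * span {k} = A * span {k} := by rw [Ideal.add_eq_sup, sup_idem]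
      calc G * G = A * A + (A * span {k} + A * span {k}) + span {k} * span {k} := by rw [hG]; ring
        _ = A * H := by rw [this, ← hAA, hH]; ring
    have e2 : G * cj G = span {k} * H := by
      calc G * cj G = A * cj A + span {k} * span {k} + span {k} * (A + cj A) := by
            rw [hcG, hG]; ring
        _ = span {k} * H := by
            rw [hAA, Ideal.add_eq_sup (I := span {k} * span {k}), sup_idem, hH]; ring
    have G0 : G ≠ 0 := fun h0 => A0 (by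
      rw [hG, Ideal.add_eq_sup, zero_eq_bot, sup_eq_bot_iff] at h0; exact h0.1)
    have H0 : H ≠ 0 := fun h0 => by
      rw [h0, mul_zero] at e1; exact mul_ne_zero G0 G0 e1
    obtain ⟨g, hg⟩ := mul_cj h.fund G
    have c1 : cl H = 1 := by
      have := (cl_eq_one (mul_ne_zero (span_ne k0) H0)).2 ⟨g, e2.symm.trans hg⟩
      rwa [cl_mul (span_ne k0) H0, cl_span k0, one_mul] at this
    refine ⟨cl G, ?_⟩
    rw [sq, ← cl_mul G0 G0, e1, cl_mul A0 H0, c1, mul_one, hA, cl_mul (span_ne α0) J0,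
      cl_span α0, one_mul]

open Classical in
theorem Imag.count (h : Imag a b m r) :
    2 * Nat.card {y : ClassGroup (QuadraticAlgebra ℤ a b) // ∃ x, x ^ 4 = 1 ∧ x ^ 2 = y}
      = (r.divisors.filter (Sol m)).card := by
  have r0 := h.sqf_r.ne_zero
  have ex : ∀ η : ℕ, ∃ J : Ideal (QuadraticAlgebra ℤ a b),
      η ∣ r → J ^ 2 = span {(η : QuadraticAlgebra ℤ a b)} := fun η => by
    by_cases hη : η ∣ r
    · obtain ⟨J, hJ⟩ := h.amb_ex hη
      exact ⟨J, fun _ => hJ⟩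
    · exact ⟨0, fun h1 => absurd h1 hη⟩
  choose J hJ using ex
  have sf : ∀ η, η ∣ r → Squarefree η := fun η hη => h.sqf_r.squarefree_of_dvd hη
  set s := r.divisors.filter (Sol m) with hs
  have ms : ∀ η, η ∈ s ↔ η ∣ r ∧ ∃ x, x ^ 2 = cl (J η) := fun η => by
    rw [hs, Finset.mem_filter, Nat.mem_divisors]
    constructor
    · rintro ⟨⟨h1, _⟩, h2⟩
      exact ⟨h1, (h.sq_iff (sf η h1).ne_zero (hJ η h1)).2 h2⟩
    · rintro ⟨h1, h2⟩
      exact ⟨⟨h1, r0⟩, (h.sq_iff (sf η h1).ne_zero (hJ η h1)).1 h2⟩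
  have c1 : Nat.card {y : ClassGroup (QuadraticAlgebra ℤ a b) // ∃ x, x ^ 4 = 1 ∧ x ^ 2 = y}
      = (s.image fun η => cl (J η)).card := by
    apply Nat.subtype_card
    intro y
    rw [Finset.mem_image]
    constructor
    · rintro ⟨η, hη, rfl⟩
      obtain ⟨h1, x, hx⟩ := (ms η).1 hη
      refine ⟨x, ?_, hx⟩
      rw [show (4 : ℕ) = 2 * 2 from rfl, pow_mul, hx, amb_cl (sf η h1).ne_zero (hJ η h1)]
    · rintro ⟨x, h4, rfl⟩
      obtain ⟨η, J', hη, hJ', hc⟩ := h.surj (x ^ 2) (by rw [← pow_mul]; exact h4)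
      have h1 := h.amb_dvd hη hJ'
      have e : J η = J' := sq_inj ((hJ η h1).trans hJ'.symm)
      exact ⟨η, (ms η).2 ⟨h1, x, by rw [e, hc]⟩, by rw [e, hc]⟩
  rw [c1, Finset.card_eq_sum_card_image (fun η => cl (J η)) s, mul_comm, ← smul_eq_mul,
    ← Finset.sum_const]
  apply Finset.sum_congr rfl
  intro y hy
  obtain ⟨η, hη, rfl⟩ := Finset.mem_image.1 hy
  obtain ⟨h1, x, hx⟩ := (ms η).1 hη
  obtain ⟨τ, c, hτ, c0, hc⟩ := h.tau h1
  have ht := h.tau_cl (sf η h1).ne_zero (sf τ hτ).ne_zero c0 hc (hJ η h1) (hJ τ hτ)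
  have ne : η ≠ τ := by
    rintro rfl
    apply h.ne
    refine (sqf_eq squarefree_one h.sqf (x := η) (y := c) (by exact_mod_cast (sf η h1).ne_zero) ?_).symm
    have : (η : ℤ) * η = m * c ^ 2 := by exact_mod_cast hc
    push_cast; linarith
  rw [← Finset.card_pair ne]
  congr 1
  ext η'
  rw [Finset.mem_filter, Finset.mem_insert, Finset.mem_singleton]
  constructor
  · rintro (rfl | rfl)
    · exact ⟨hη, rfl⟩
    · exact ⟨(ms _).2 ⟨hτ, x, hx.trans ht.symm⟩, ht⟩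
  · rintro ⟨h2, h3⟩
    have h4 := ((ms η').1 h2).1
    exact h.fiber (sf η h1) (sf η' h4) (sf τ hτ) c0 hc (hJ η h1) (hJ η' h4) h3.symm

end Pool.Agent.MP_5d10af_nt
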