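import Mathlib

/-! Rings of integers and discriminants of quadratic fields. -/

set_option autoImplicit false

namespace Pool.Agent.MP_5d10af_nt

open QuadraticAlgebra NumberField

/-- `b² + 4a` is a fundamental discriminant (or `1`). -/
def Fund (a b : ℤ) : Prop :=
  (b = 1 ∧ Squarefree (4 * a + 1)) ∨ (b = 0 ∧ Squarefree a ∧ (a % 4 = 2 ∨ a % 4 = 3))

lemma sqf_dvd {d g v : ℤ} (hd : Squarefree d) (h : g ^ 2 ∣ d * v ^ 2) : g ∣ v := by
  by_cases h0 : Int.gcd g v = 0
  · rw [Int.gcd_eq_zero_iff] at h0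
    rw [h0.2]; exact dvd_zero _
  obtain ⟨g', v', hc, hg, hv⟩ := Int.exists_gcd_one (Nat.pos_of_ne_zero h0)
  set k : ℤ := ((Int.gcd g v : ℕ) : ℤ) with hk
  have k0 : k ≠ 0 := by rw [hk]; exact_mod_cast h0
  have h1 : g' ^ 2 ∣ d * v' ^ 2 := by
    rw [hg, hv] at h
    have e1 : (g' * k) ^ 2 = g' ^ 2 * k ^ 2 := by ring
    have e2 : d * (v' * k) ^ 2 = d * v' ^ 2 * k ^ 2 := by ring
    rw [e1, e2] at h
    exact (mul_dvd_mul_iff_right (pow_ne_zero 2 k0)).1 h
  have hc' : IsCoprime (g' ^ 2) (v' ^ 2) := (Int.isCoprime_iff_gcd_eq_one.2 hc).pow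
  have h2 := hc'.dvd_of_dvd_mul_right h1
  have h3 : IsUnit g' := hd g' (by rwa [← sq])
  rw [hg, hv]
  exact mul_dvd_mul_right h3.dvd k

lemma Fund.key {a b : ℤ} (h : Fund a b) {g u v : ℤ} (h1 : g ∣ 2 * u + b * v)
    (h2 : g ^ 2 ∣ u * u + b * u * v - a * v * v) : g ∣ u ∧ g ∣ v := by
  by_cases g0 : g = 0
  · subst g0
    rw [zero_dvd_iff] at h1
    rw [zero_pow (by norm_num), zero_dvd_iff] at h2
    have hv : (0 : ℤ) ∣ v := by
      rcases h with ⟨rfl, hs⟩ | ⟨rfl, hs, _⟩
      · apply sqf_dvd hs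
        rw [zero_pow (by norm_num), zero_dvd_iff]
        linear_combination (2 * u + v) * h1 - 4 * h2
      · apply sqf_dvd hs
        rw [zero_pow (by norm_num), zero_dvd_iff]
        have : u = 0 := by linarith
        rw [this] at h2
        linear_combination -h2
    rw [zero_dvd_iff] at hv
    rw [hv] at h1
    exact ⟨by rw [zero_dvd_iff]; linarith, by rw [hv]⟩
  obtain ⟨t, ht⟩ := h1
  obtain ⟨n, hn⟩ := h2
  rcases h with ⟨rfl, hs⟩ | ⟨rfl, hs, h4⟩
  · have e : (4 * a + 1) * v ^ 2 = g ^ 2 * (t ^ 2 - 4 * n) := by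
      linear_combination (2 * u + v + g * t) * ht - 4 * hn
    obtain ⟨v', rfl⟩ := sqf_dvd hs ⟨_, e⟩
    have e2 : (4 * a + 1) * v' ^ 2 = t ^ 2 - 4 * n := by
      apply mul_left_cancel₀ (pow_ne_zero 2 g0)
      linear_combination e
    have e3 : (2 : ℤ) ∣ (t - v') ^ 2 :=
      ⟨2 * a * v' ^ 2 + 2 * n + v' ^ 2 - t * v', by linear_combination -e2⟩
    obtain ⟨w, hw⟩ := Int.prime_two.dvd_of_dvd_pow e3
    refine ⟨⟨w, ?_⟩, dvd_mul_right _ _⟩
    apply mul_left_cancel₀ (two_ne_zero)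
    linear_combination ht + g * hw
  · have e : a * (2 * v) ^ 2 = g ^ 2 * (t ^ 2 - 4 * n) := by
      linear_combination (2 * u + g * t) * ht - 4 * hn
    obtain ⟨v', hv'⟩ := sqf_dvd hs ⟨_, e⟩
    have e2 : a * v' ^ 2 = t ^ 2 - 4 * n := by
      apply mul_left_cancel₀ (pow_ne_zero 2 g0)
      rw [hv'] at e
      linear_combination e
    obtain ⟨a', ha'⟩ : ∃ a' : ℤ, a = 4 * a' + 2 ∨ a = 4 * a' + 3 := ⟨a / 4, by omega⟩
    rcases Int.even_or_odd' v' with ⟨p, rfl | rfl⟩ <;> rcases Int.even_or_odd' t with ⟨q, rfl | rfl⟩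
    · exact ⟨⟨q, by linarith⟩, ⟨p, by linarith⟩⟩
    · exfalso
      have : 4 * (a * p ^ 2 - q ^ 2 - q + n) = 1 := by linear_combination e2
      omega
    · exfalso
      rcases ha' with rfl | rfl
      · have : 4 * (a' * (2 * p + 1) ^ 2 + 2 * p ^ 2 + 2 * p - q ^ 2 + n) = -2 := by
          linear_combination e2
        omega
      · have : 4 * (a' * (2 * p + 1) ^ 2 + 3 * p ^ 2 + 3 * p - q ^ 2 + n) = -3 := by
          linear_combination e2
        omega
    · exfalso
      rcases ha' with rfl | rfl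
      · have : 4 * (a' * (2 * p + 1) ^ 2 + 2 * p ^ 2 + 2 * p - q ^ 2 - q + n) = -1 := by
          linear_combination e2
        omega
      · have : 4 * (a' * (2 * p + 1) ^ 2 + 3 * p ^ 2 + 3 * p - q ^ 2 - q + n) = -2 := by
          linear_combination e2
        omega

lemma Fund.key' {a b : ℤ} (h : Fund a b) {g : ℤ} {z : QuadraticAlgebra ℤ a b}
    (h1 : g ∣ trace z) (h2 : g ^ 2 ∣ z.norm) : (g : QuadraticAlgebra ℤ a b) ∣ z := by
  obtain ⟨⟨u, hu⟩, ⟨v, hv⟩⟩ := h.key (u := z.re) (v := z.im) h1 h2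
  exact ⟨⟨u, v⟩, by ext <;> simp [hu, hv]⟩

lemma alg_trace (a b : ℤ) (z : QuadraticAlgebra ℤ a b) : Algebra.trace ℤ _ z = trace z := by
  rw [Algebra.trace_eq_matrix_trace (basis a b), Matrix.trace, trace_def]
  simp [Algebra.leftMulMatrix_eq_repr_mul, basis]
  ring

lemma alg_discr (a b : ℤ) : Algebra.discr ℤ (basis a b : Fin 2 → QuadraticAlgebra ℤ a b)
    = b ^ 2 + 4 * a := by
  rw [Algebra.discr_def, Matrix.det_fin_two]
  simp [Algebra.traceMatrix_apply, Algebra.traceForm_apply, alg_trace, trace_def, basis]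
  ring

lemma alg_norm (a b : ℤ) (z : QuadraticAlgebra ℤ a b) : Algebra.norm ℤ z = z.norm := by
  rw [Algebra.norm_apply, ← det_toLinearMap_eq_norm]; rfl

theorem structure_thm {a b : ℤ} (h : Fund a b) (K : Type) [Field K] [NumberField K]
    (hK : Module.finrank ℚ K = 2) (w : K) (hw : w * w = a + b * w) (hq : ∀ q : ℚ, w ≠ q) :
    discr K = b ^ 2 + 4 * a ∧ ∃ (_ : IsDedekindDomain (QuadraticAlgebra ℤ a b)),
      Nonempty (𝓞 K ≃+* QuadraticAlgebra ℤ a b) := by
  let φ : QuadraticAlgebra ℤ a b →ₐ[ℤ] K := lift ⟨w, by rw [hw]; simp⟩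
  let ψ : QuadraticAlgebra ℚ a b →ₐ[ℚ] K := lift ⟨w, by rw [hw]; simp [Algebra.smul_def]⟩
  have φa : ∀ z, φ z = z.re + z.im * w := fun z => by simp [φ]
  have ψa : ∀ z, ψ z = z.re + z.im * w := fun z => by simp [ψ, Algebra.smul_def]
  have li : ∀ p q : ℚ, (p : K) + q * w = 0 → p = 0 ∧ q = 0 := by
    intro p q hpq
    by_cases q0 : q = 0
    · subst q0; simpa using hpq
    · exfalso
      apply hq (-p / q)
      have : (q : K) ≠ 0 := by exact_mod_cast q0
      push_cast
      field_simp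
      linear_combination hpq
  have ψi : Function.Injective ψ := by
    rw [injective_iff_map_eq_zero]
    intro z hz
    rw [ψa] at hz
    obtain ⟨h1, h2⟩ := li _ _ hz
    ext <;> simp [h1, h2]
  have φi : Function.Injective φ := by
    rw [injective_iff_map_eq_zero]
    intro z hz
    rw [φa] at hz
    obtain ⟨h1, h2⟩ := li z.re z.im (by exact_mod_cast hz)
    ext
    · exact_mod_cast h1
    · exact_mod_cast h2
  have ψs : Function.Surjective ψ :=
    (LinearMap.injective_iff_surjective_of_finrank_eq_finrank (f := ψ.toLinearMap)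
      (by rw [hK, finrank_eq_two])).1 ψi
  let _ : Algebra (QuadraticAlgebra ℤ a b) K := φ.toRingHom.toAlgebra
  have hic : IsIntegralClosure (QuadraticAlgebra ℤ a b) ℤ K := by
    refine ⟨φi, fun {x} => ⟨fun hx => ?_, ?_⟩⟩
    · obtain ⟨z, rfl⟩ := ψs x
      have hz : IsIntegral ℤ z := (isIntegral_algHom_iff (ψ.restrictScalars ℤ) ψi).1 hx
      have hs : IsIntegral ℤ (star z) := hz.map (starRingEnd _).toIntAlgHom
      have inj : Function.Injective (algebraMap ℚ (QuadraticAlgebra ℚ (a : ℚ) (b : ℚ))) :=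
        (algebraMap ℚ _).injective
      have ht : IsIntegral ℤ (trace z) := by
        rw [← isIntegral_algebraMap_iff inj, algebraMap_trace_eq_add_star]
        exact hz.add hs
      have hn : IsIntegral ℤ z.norm := by
        rw [← isIntegral_algebraMap_iff inj, algebraMap_norm_eq_mul_star]
        exact hz.mul hs
      obtain ⟨t, ht⟩ := IsIntegrallyClosed.isIntegral_iff.1 ht
      obtain ⟨n, hn⟩ := IsIntegrallyClosed.isIntegral_iff.1 hn
      simp only [trace_def, norm_def, eq_intCast] at ht hn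
      set g : ℤ := z.re.den * z.im.den with hg
      have g0 : (g : ℚ) ≠ 0 := by
        rw [hg]; push_cast
        exact mul_ne_zero (by exact_mod_cast z.re.den_ne_zero) (by exact_mod_cast z.im.den_ne_zero)
      have hu : ((z.re.num * z.im.den : ℤ) : ℚ) = g * z.re := by
        rw [hg]; push_cast; rw [← Rat.mul_den_eq_num]; ring
      have hv : ((z.im.num * z.re.den : ℤ) : ℚ) = g * z.im := by
        rw [hg]; push_cast; rw [← Rat.mul_den_eq_num]; ring
      generalize z.re.num * z.im.den = u at hu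
      generalize z.im.num * z.re.den = v at hv
      obtain ⟨⟨u', hu'⟩, ⟨v', hv'⟩⟩ := h.key (g := g) (u := u) (v := v)
        ⟨t, by
          apply Int.cast_injective (α := ℚ)
          push_cast
          rw [hu, hv, ht]; ring⟩
        ⟨n, by
          apply Int.cast_injective (α := ℚ)
          push_cast
          rw [hu, hv, hn]; ring⟩
      have e1 : z.re = u' := by
        apply mul_left_cancel₀ g0
        rw [← hu, hu']; push_cast; ring
      have e2 : z.im = v' := by
        apply mul_left_cancel₀ g0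
        rw [← hv, hv']; push_cast; ring
      refine ⟨⟨u', v'⟩, ?_⟩
      show φ ⟨u', v'⟩ = ψ z
      rw [φa, ψa, e1, e2]; simp
    · rintro ⟨y, rfl⟩
      exact (Algebra.IsIntegral.isIntegral (R := ℤ) y).map φ
  have hdom : IsDomain (QuadraticAlgebra ℤ a b) := φi.isDomain φ.toRingHom
  have hded : IsDedekindDomain (QuadraticAlgebra ℤ a b) :=
    IsIntegralClosure.isDedekindDomain ℤ ℚ K _
  let e : 𝓞 K ≃+* QuadraticAlgebra ℤ a b := RingOfIntegers.equiv _
  refine ⟨?_, hded, ⟨e⟩⟩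
  let e' : QuadraticAlgebra ℤ a b ≃ₐ[ℤ] 𝓞 K := AlgEquiv.ofRingEquiv (f := e.symm) (fun x => by simp)
  rw [← discr_eq_discr K ((basis a b).map e'.toLinearEquiv), ← alg_discr,
    Algebra.discr_eq_discr_of_algEquiv _ e']
  rfl

theorem exists_field {a b : ℤ} (hneg : b ^ 2 + 4 * a < 0) :
    ∃ (K : Type) (_ : Field K) (_ : NumberField K), Module.finrank ℚ K = 2 ∧
      ∃ w : K, w * w = a + b * w ∧ ∀ q : ℚ, w ≠ q := by
  have hf : Fact (∀ r : ℚ, r ^ 2 ≠ (a : ℚ) + b * r) := ⟨fun r hr => by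
    have h1 : ((b ^ 2 + 4 * a : ℤ) : ℚ) < 0 := by exact_mod_cast hneg
    push_cast at h1
    nlinarith [sq_nonneg (2 * r - b)]⟩
  refine ⟨QuadraticAlgebra ℚ a b, inferInstance, {}, finrank_eq_two _ _, omega, ?_, ?_⟩
  · ext <;> simp
  · intro q hq
    have := congrArg QuadraticAlgebra.im hq
    simp at this

theorem fund_of_field (K : Type) [Field K] [NumberField K] (hK : Module.finrank ℚ K = 2) :
    ∃ a b : ℤ, Fund a b ∧ discr K = b ^ 2 + 4 * a := by
  obtain ⟨β, hβ⟩ : ∃ β : K, ∀ q : ℚ, β ≠ q := by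
    by_contra hcon
    push Not at hcon
    have hs : Function.Surjective (Algebra.linearMap ℚ K) := fun x => by
      obtain ⟨q, hq⟩ := hcon x
      exact ⟨q, by simp [hq]⟩
    have := LinearMap.finrank_le_finrank_of_surjective hs
    simp [hK] at this
  obtain ⟨p, q, hpq⟩ : ∃ p q : ℚ, β * β = p + q * β := by
    have hl : LinearIndependent ℚ ![(1 : K), β] := by
      rw [LinearIndependent.pair_iff]
      intro s t hst
      by_cases t0 : t = 0
      · subst t0; simpa using hst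
      · exfalso
        apply hβ (-s / t)
        have : (t : K) ≠ 0 := by exact_mod_cast t0
        simp only [Algebra.smul_def, eq_ratCast, mul_one] at hst
        push_cast
        field_simp
        linear_combination hst
    have hsp := hl.span_eq_top_of_card_eq_finrank' (by simp [hK])
    have : β * β ∈ Submodule.span ℚ (Set.range ![(1 : K), β]) := by rw [hsp]; trivial
    rw [Matrix.range_cons_cons_empty, Submodule.mem_span_pair] at this
    obtain ⟨p, q, h⟩ := this
    exact ⟨p, q, by rw [← h]; simp [Algebra.smul_def]⟩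
  set c : ℚ := q ^ 2 + 4 * p with hc
  have hγ : (2 * β - q) ^ 2 = (c : K) := by rw [hc]; push_cast; linear_combination 4 * hpq
  have c0 : c ≠ 0 := by
    intro h0
    rw [h0] at hγ
    apply hβ (q / 2)
    have : 2 * β - q = 0 := by simpa using hγ
    push_cast
    linear_combination this / 2
  have n0 : (c.num * c.den).natAbs ≠ 0 := by
    simp [c0, c.den_ne_zero]
  obtain ⟨s, k, -, k0, hk, hs⟩ := Nat.sq_mul_squarefree_of_pos (Nat.pos_of_ne_zero n0)
  obtain ⟨D, hD, hDs⟩ : ∃ D : ℤ, (k : ℤ) ^ 2 * D = c.num * c.den ∧ Squarefree D := by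
    have hk' : (k : ℤ) ^ 2 * s = |c.num * c.den| := by
      rw [← Int.natCast_natAbs, ← hk]; push_cast; ring
    rcases abs_choice (c.num * c.den) with h | h
    · exact ⟨s, hk'.trans h, Int.squarefree_natCast.2 hs⟩
    · refine ⟨-s, by linarith, ?_⟩
      rw [← Int.squarefree_natAbs]; simpa using hs
  have k0' : (k : K) ≠ 0 := by exact_mod_cast k0.ne'
  have d0 : (c.den : K) ≠ 0 := by exact_mod_cast c.den_ne_zero
  set θ : K := (2 * β - q) * c.den / k with hθ
  have hθ2 : θ * θ = D := by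
    have e1 : (k : K) ^ 2 * D = c.num * c.den := by exact_mod_cast congrArg (Int.cast : ℤ → K) hD
    have e2 : (c : K) * c.den = c.num := by exact_mod_cast congrArg (Rat.cast : ℚ → K) c.mul_den_eq_num
    rw [hθ]
    field_simp
    rw [hγ, e1, ← e2]; ring
  have hθq : ∀ r : ℚ, θ ≠ r := by
    intro r hr
    apply hβ ((r * k / c.den + q) / 2)
    push_cast
    rw [← hr, hθ]
    field_simp
    ring
  have h4 : D % 4 = 1 ∨ D % 4 = 2 ∨ D % 4 = 3 := by
    have : ¬ (2 * 2 : ℤ) ∣ D := fun h => by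
      have := Int.isUnit_iff.1 (hDs 2 h); omega
    omega
  rcases h4 with h4 | h4
  · obtain ⟨a, ha⟩ : ∃ a : ℤ, D = 4 * a + 1 := ⟨D / 4, by omega⟩
    have hF : Fund a 1 := Or.inl ⟨rfl, ha ▸ hDs⟩
    refine ⟨a, 1, hF, (structure_thm hF K hK ((1 + θ) / 2) ?_ ?_).1⟩
    · rw [ha] at hθ2
      push_cast at hθ2 ⊢
      linear_combination hθ2 / 4
    · intro r hr
      apply hθq (2 * r - 1)
      push_cast
      linear_combination 2 * hr
  · have hF : Fund D 0 := Or.inr ⟨rfl, hDs, h4⟩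
    exact ⟨D, 0, hF, (structure_thm hF K hK θ (by simpa using hθ2) hθq).1⟩

end Pool.Agent.MP_5d10af_nt
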