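import Pool.Agent.MP_5d10af_nt.Cnt
import Pool.Agent.MP_5d10af_nt.GClass

set_option autoImplicit false

namespace Pool.Agent.MP_5d10af_nt

open Classical in
lemma two_F (F : ℤ → ℕ) (hF : IsF F) {a b : ℤ} {m r : ℕ} (h : Imag a b m r) :
    2 * F (b ^ 2 + 4 * a) = (r.divisors.filter (Sol m)).card := by
  have m0 : (0 : ℤ) < m := by exact_mod_cast Nat.pos_of_ne_zero h.sqf.ne_zero
  have hneg : b ^ 2 + 4 * a < 0 := by
    rcases h.cases with ⟨rfl, h2, _⟩ | ⟨rfl, h2, _⟩ <;> linarith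
  obtain ⟨K, _, _, hK, w, hw, hq⟩ := exists_field hneg
  obtain ⟨hd, hded, ⟨e⟩⟩ := structure_thm h.fund K hK w hw hq
  rw [(hF _).1 K hK hd, ← h.count]
  congr 1
  let φ := ClassGroup.mulEquiv e
  refine Nat.card_congr (φ.toEquiv.subtypeEquiv fun y => ⟨?_, ?_⟩)
  · rintro ⟨x, h4, rfl⟩
    exact ⟨φ x, by rw [← map_pow, h4, map_one], by rw [← map_pow]; rfl⟩
  · rintro ⟨x, h4, h2⟩
    refine ⟨φ.symm x, by rw [← map_pow, h4, map_one], ?_⟩
    rw [← map_pow, h2]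
    exact φ.symm_apply_apply y

theorem genus_of_isF (F : ℤ → ℕ) (hF : IsF F) : Genus F := by
  refine ⟨fun m hs h4 => ?_, fun m hs h4 h1 => ?_, fun m hs h2 => ?_, fun n n0 h1 h2 h3 => ?_⟩
  · obtain ⟨a, ha⟩ : ∃ a : ℤ, 4 * a + 1 = -m := ⟨(-m - 1) / 4, by omega⟩
    have := two_F F hF (a := a) (b := 1) (m := m) (r := m) ⟨hs, by omega, Or.inl ⟨rfl, ha, rfl⟩⟩
    rw [cnt_11 hs (by omega)] at this
    rw [← this]
    congr 2
    linarith
  · have := two_F F hF (a := -m) (b := 0) (m := m) (r := 2 * m)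
      ⟨hs, h1, Or.inr ⟨rfl, rfl, Or.inr ⟨h4, rfl⟩⟩⟩
    rw [card_two_mul m (by omega), cnt_11 hs (by omega), cnt_22 hs (by omega)] at this
    rw [← this]
    congr 2
    push_cast; ring
  · have := two_F F hF (a := -(2 * m : ℕ)) (b := 0) (m := 2 * m) (r := 2 * m)
      ⟨sqf_two hs h2, by omega, Or.inr ⟨rfl, rfl, Or.inl ⟨by omega, rfl⟩⟩⟩
    rw [card_two_mul m h2, cnt_21 hs h2, cnt_12 hs h2, add_comm (cnt 2 1 m)] at this
    rw [← this]
    congr 2
    push_cast; ring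
  · apply (hF _).2
    rintro ⟨K, _, _, hK, hd⟩
    obtain ⟨a, b, hab, hd2⟩ := fund_of_field K hK
    rw [hd] at hd2
    rcases hab with ⟨rfl, hs⟩ | ⟨rfl, hs, h4⟩
    · apply h1
      refine ⟨?_, by omega⟩
      have e : (4 * a + 1).natAbs = n := by omega
      rw [← e]; exact Int.squarefree_natAbs.2 hs
    · have hs' : Squarefree a.natAbs := Int.squarefree_natAbs.2 hs
      rcases h4 with h4 | h4
      · obtain ⟨k, hk⟩ : ∃ k, a.natAbs = 2 * k := ⟨a.natAbs / 2, by omega⟩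
        exact h3 k (hk ▸ hs').of_mul_right (by omega) (by omega)
      · exact h2 a.natAbs hs' (by omega) (by omega)

end Pool.Agent.MP_5d10af_nt
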